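import Pool.Agent.Lib.MP_4fbe7c_an.WN.Iface
import Pool.Agent.Lib.MP_4fbe7c_an.ND.Base

/-!
Project WN (MP_4fbe7c_an): common lemmas (helper54).
-/

set_option autoImplicit false

open Set MeasureTheory

namespace Pool.Agent.Lib.MP_4fbe7c_an.WN

open Pool.Agent.Lib.MP_4fbe7c_an.UL Pool.Agent.Lib.MP_4fbe7c_an.ND

/-! ### The sums `qv` -/

section qv

variable {E : Type*} [AddCommGroup E] [Module ℝ E]

theorem qv_succ {n k : ℕ} (z : ℕ → E) (hk : k ≤ n) : qv n z k = z k + qv n z (k + 1) := by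
  unfold qv
  rw [Finset.sum_eq_sum_Ico_succ_bot (by omega)]

theorem qv_zero {n : ℕ} (z : ℕ → E) : qv n z 0 = z 0 + qv n z 1 := qv_succ z (Nat.zero_le n)

theorem qv_zero' {n : ℕ} (z : ℕ → E) : qv n z 0 = ∑ i ∈ Finset.range (n + 1), z i := by
  unfold qv
  rw [Finset.range_eq_Ico]

theorem qv_top {n : ℕ} (z : ℕ → E) : qv n z (n + 1) = 0 := by simp [qv]

theorem qv_add {n k : ℕ} (z w : ℕ → E) : qv n (fun i => z i + w i) k = qv n z k + qv n w k :=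
  Finset.sum_add_distrib

theorem qv_smul {n k : ℕ} (c : ℝ) (z : ℕ → E) : qv n (fun i => c • z i) k = c • qv n z k := by
  unfold qv
  rw [Finset.smul_sum]

end qv

theorem qv_nonneg {n k : ℕ} {r : ℕ → ℝ} (hr : ∀ i, i ≤ n → 0 ≤ r i) : 0 ≤ qv n r k :=
  Finset.sum_nonneg fun i hi => hr i (by have := (Finset.mem_Ico.mp hi).2; omega)

theorem qv_pos {n k : ℕ} {r : ℕ → ℝ} (hr : ∀ i, i ≤ n → 0 < r i) (hk : k ≤ n) : 0 < qv n r k :=
  Finset.sum_pos (fun i hi => hr i (by have := (Finset.mem_Ico.mp hi).2; omega))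
    ⟨k, Finset.mem_Ico.mpr ⟨le_rfl, by omega⟩⟩

theorem qv_anti {n k l : ℕ} {r : ℕ → ℝ} (hr : ∀ i, i ≤ n → 0 ≤ r i) (h : k ≤ l) :
    qv n r l ≤ qv n r k :=
  Finset.sum_le_sum_of_subset_of_nonneg (Finset.Ico_subset_Ico_left h)
    fun i hi _ => hr i (by have := (Finset.mem_Ico.mp hi).2; omega)

/-! ### Coordinates -/

section coord

variable {p : ℕ}

theorem qv_coord {n k : ℕ} (z : ℕ → Eu p) (c : Fin p) :
    (qv n z k) c = qv n (fun i => z i c) k := by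
  simp [qv]

theorem Ng_coord {n : ℕ} (κ : ℕ → ℝ) (a b : ℝ) (r : ℕ → ℝ) (z : ℕ → Eu p) (c : Fin p) :
    (Ng n κ a b r z) c = Ng n κ a b r (fun i => z i c) := by
  simp [Ng, qv_coord]

theorem Sg_coord {n : ℕ} (κ : ℕ → ℝ) (a b : ℝ) (z : ℕ → Eu p) (i : ℕ) (c : Fin p) :
    (Sg n κ a b z i) c = Sg n κ a b (fun i => z i c) i := by
  simp [Sg, qv_coord]

theorem Gf_coord {n : ℕ} (κ : ℕ → ℝ) (a b : ℝ) (r : ℕ → ℝ) (z : ℕ → Eu p) (i : ℕ) (c : Fin p) :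
    (Gf n κ a b r z i) c = Gf n κ a b r (fun i => z i c) i := by
  unfold Gf
  by_cases h : i = 0
  · simp [h, Ng_coord, qv_coord]
  · simp [h, Ng_coord, Sg_coord, qv_coord]

end coord

/-! ### The weights -/

theorem al_nonneg {n : ℕ} {K : ℝ} {κ : ℕ → ℝ} (h : Kap n K κ) {k : ℕ} (h2 : 2 ≤ k)
    (hk : k ≤ n) : 0 ≤ al κ k := by
  unfold al
  have := h.mono (k - 1) (by omega) (by omega)
  rw [Nat.sub_add_cancel (by omega)] at this
  linarith

theorem Kap.nonneg {n : ℕ} {K : ℝ} {κ : ℕ → ℝ} (h : Kap n K κ) {k : ℕ} (h1 : 1 ≤ k)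
    (hk : k ≤ n) : 0 ≤ κ k := by
  induction k with
  | zero => omega
  | succ k ih =>
    rcases Nat.eq_zero_or_pos k with rfl | h0
    · simpa using h.one.ge
    · exact (ih (by omega) (by omega)).trans (h.mono k (by omega) (by omega))

theorem sum_al {n : ℕ} (κ : ℕ → ℝ) (hn : 1 ≤ n) :
    ∑ k ∈ Finset.Ico 2 (n + 1), al κ k = κ n - κ 1 := by
  induction n with
  | zero => omega
  | succ n ih =>
    rcases Nat.eq_zero_or_pos n with rfl | h0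
    · simp
    · rw [Finset.sum_Ico_succ_top (by omega), ih (by omega)]
      unfold al
      rw [Nat.add_sub_cancel]
      ring

theorem wid_nonneg (K : ℝ) : 0 ≤ wid K := by unfold wid; positivity

theorem wid_pos {K : ℝ} (hK : 0 < K) : 0 < wid K := by
  unfold wid
  have : 0 < Real.sqrt (min 1 K) := Real.sqrt_pos.mpr (lt_min one_pos hK)
  positivity

theorem wid_sq {K : ℝ} (hK : 0 ≤ K) : wid K ^ 2 = min 1 K / 1000000 := by
  unfold wid
  rw [div_pow, Real.sq_sqrt (le_min zero_le_one hK)]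
  norm_num

theorem wa_pos {K : ℝ} (hK : 0 ≤ K) : 0 < wa K := by unfold wa; positivity

theorem wb_nonneg (K : ℝ) : 0 ≤ wb K := by
  unfold wb
  have := wid_nonneg K
  positivity

theorem wb_mul_wid {K : ℝ} (hK : 0 < K) : wb K * wid K = 1 / (100000 * (1 + K) ^ 2) := by
  unfold wb
  have := wid_pos hK
  field_simp

theorem hw_pos (R : ℝ) : 0 < hw R := by unfold hw; positivity

theorem Nq_nonneg {n : ℕ} {K : ℝ} {κ : ℕ → ℝ} (h : Kap n K κ) {a b : ℝ} (ha : 0 ≤ a)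
    (hb : 0 ≤ b) (r : ℕ → ℝ) : 0 ≤ Nq n κ a b r := by
  unfold Nq
  have h1 : 0 ≤ ∑ k ∈ Finset.Ico 2 (n + 1), al κ k * qv n r k ^ 2 :=
    Finset.sum_nonneg fun k hk => by
      obtain ⟨h2, h3⟩ := Finset.mem_Ico.mp hk
      exact mul_nonneg (al_nonneg h h2 (by omega)) (sq_nonneg _)
  positivity

/-! ### The steady state -/

theorem stdy_bounds {p : ℕ} {Ω : Set (Eu p)} {q m : Eu p → ℝ} {d : ℝ} {θ : Eu p → ℝ}
    {θ' : Eu p → Eu p} {θ'' : Eu p → Eu p →L[ℝ] Eu p} (hΩ : Dom Ω q)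
    (h : Stdy Ω q m d θ θ' θ'') :
    ∃ l B : ℝ, 0 < l ∧ l ≤ B ∧ ∀ x ∈ closure Ω, l ≤ θ x ∧ θ x ≤ B := by
  obtain ⟨l, hl, h1⟩ := hΩ.exists_pos_le h.c2.toC1.c0 h.pos
  obtain ⟨B, hB, h2⟩ := hΩ.exists_bound h.c2.toC1.c0
  obtain ⟨x, hx⟩ := hΩ.closure_nonempty
  refine ⟨l, B, hl, ?_, fun x hx => ⟨h1 x hx, (le_abs_self _).trans ?_⟩⟩
  · have := h2 x hx
    rw [Real.norm_eq_abs] at this
    exact (h1 x hx).trans ((le_abs_self _).trans this)
  · simpa [Real.norm_eq_abs] using h2 x hx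

end Pool.Agent.Lib.MP_4fbe7c_an.WN
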