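import Pool.Agent.Lib.MP_4fbe7c_an.ND.Iface

/-!
Project WN (MP_4fbe7c_an): the slowest disperser wins in EVERY environment, for every number of
species, if the rates of the competitors lie in a narrow window.
Definitions and the statements of all modules.
Proofs on paper: `Pool/Agent/Lib/MP_4fbe7c_an/WN/Paper.md`.

Species are numbered `0, …, n`; `r i = u_i / θ`, `qv n r k = Σ_{k ≤ i ≤ n} r i`, so
`qv n r 0 = U / θ` and `qv n r 1` is the sum of the competitors.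
-/

set_option autoImplicit false

open Set MeasureTheory

namespace Pool.Agent.Lib.MP_4fbe7c_an.WN

open Pool.Agent.Lib.MP_4fbe7c_an.UL Pool.Agent.Lib.MP_4fbe7c_an.ND

/-! ### The density of the functional -/

/-- `Φ`. -/
noncomputable def Ph (r : ℝ) : ℝ := if r < 1 then 2 * r - Real.log r - r ^ 2 / 2 else 3 / 2

/-- `Φ'`. -/
noncomputable def Ph1 (r : ℝ) : ℝ := if r < 1 then -((1 - r) ^ 2 / r) else 0

/-- `Φ''`. -/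
noncomputable def Ph2 (r : ℝ) : ℝ := if r < 1 then 1 / r ^ 2 - 1 else 0

/-- `h`. -/
noncomputable def hw (R : ℝ) : ℝ := (1 + Real.exp (4 - 4 * R)) / 2

/-- `h'`. -/
noncomputable def hw1 (R : ℝ) : ℝ := -2 * Real.exp (4 - 4 * R)

/-- `h''`. -/
noncomputable def hw2 (R : ℝ) : ℝ := 8 * Real.exp (4 - 4 * R)

section density

variable {E : Type*} [AddCommGroup E] [Module ℝ E]

/-- `Σ_{k ≤ i ≤ n} z i`. -/
def qv (n : ℕ) (z : ℕ → E) (k : ℕ) : E := ∑ i ∈ Finset.Ico k (n + 1), z i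

/-- The increments of `κ`. -/
def al (κ : ℕ → ℝ) (k : ℕ) : ℝ := κ k - κ (k - 1)

/-- `N = a v² + b Σ_{2 ≤ k ≤ n} α_k q_k²`. -/
noncomputable def Nq (n : ℕ) (κ : ℕ → ℝ) (a b : ℝ) (r : ℕ → ℝ) : ℝ :=
  a * qv n r 1 ^ 2 + b * ∑ k ∈ Finset.Ico 2 (n + 1), al κ k * qv n r k ^ 2

/-- The derivative of `N` in the direction `z`. -/
noncomputable def Ng (n : ℕ) (κ : ℕ → ℝ) (a b : ℝ) (r : ℕ → ℝ) (z : ℕ → E) : E :=
  (2 * a * qv n r 1) • qv n z 1 +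
    ∑ k ∈ Finset.Ico 2 (n + 1), (2 * b * (al κ k * qv n r k)) • qv n z k

/-- `a v + b Σ_{2 ≤ k ≤ i} α_k q_k`. -/
noncomputable def Sb (n : ℕ) (κ : ℕ → ℝ) (a b : ℝ) (r : ℕ → ℝ) (i : ℕ) : ℝ :=
  a * qv n r 1 + b * ∑ k ∈ Finset.Ico 2 (i + 1), al κ k * qv n r k

/-- The derivative of `Sb` in the direction `z`. -/
noncomputable def Sg (n : ℕ) (κ : ℕ → ℝ) (a b : ℝ) (z : ℕ → E) (i : ℕ) : E :=
  a • qv n z 1 + ∑ k ∈ Finset.Ico 2 (i + 1), (b * al κ k) • qv n z k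

/-- The density `F`. -/
noncomputable def Fh (n : ℕ) (κ : ℕ → ℝ) (a b : ℝ) (r : ℕ → ℝ) : ℝ :=
  Ph (r 0) + qv n r 1 ^ 2 / 2 + hw (qv n r 0) / 2 * Nq n κ a b r

/-- The partial derivatives of `F`. -/
noncomputable def Ff (n : ℕ) (κ : ℕ → ℝ) (a b : ℝ) (r : ℕ → ℝ) (i : ℕ) : ℝ :=
  (if i = 0 then Ph1 (r 0) else qv n r 1 + hw (qv n r 0) * Sb n κ a b r i)
    + hw1 (qv n r 0) / 2 * Nq n κ a b r

/-- The derivative of `Ff` in the direction `z`. -/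
noncomputable def Gf (n : ℕ) (κ : ℕ → ℝ) (a b : ℝ) (r : ℕ → ℝ) (z : ℕ → E) (i : ℕ) : E :=
  (if i = 0 then Ph2 (r 0) • z 0 else qv n z 1 + hw (qv n r 0) • Sg n κ a b z i
      + (hw1 (qv n r 0) * Sb n κ a b r i) • qv n z 0)
    + (hw1 (qv n r 0) / 2) • Ng n κ a b r z + (hw2 (qv n r 0) / 2 * Nq n κ a b r) • qv n z 0

end density

/-- The weight `s` (the width of the window). -/
noncomputable def wid (K : ℝ) : ℝ := Real.sqrt (min 1 K) / 1000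

/-- The weight `a`. -/
noncomputable def wa (K : ℝ) : ℝ := 1 / (1000 * (1 + K))

/-- The weight `b`. -/
noncomputable def wb (K : ℝ) : ℝ := 1 / (100000 * (1 + K) ^ 2 * wid K)

/-- `κ_1 = 0`, and `κ` increases to at most `wid K`. -/
structure Kap (n : ℕ) (K : ℝ) (κ : ℕ → ℝ) : Prop where
  nn : 0 ≤ K
  pos : 1 ≤ n → 0 < K
  one : κ 1 = 0
  mono : ∀ k, 1 ≤ k → k < n → κ k ≤ κ (k + 1)
  le : ∀ k, 1 ≤ k → k ≤ n → κ k ≤ wid K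

/-! ### Part A: algebra -/

/-- PHI: the function `Φ`. -/
def PhiStatement : Prop :=
  (∀ r, 0 < r → HasDerivAt Ph (Ph1 r) r ∧ HasDerivAt Ph1 (Ph2 r) r ∧ 0 ≤ Ph2 r ∧ Ph1 r ≤ 0 ∧
    3 / 2 ≤ Ph r ∧ (r ≤ 1 → 3 / 2 + (1 - r) ^ 3 / 3 ≤ Ph r)) ∧ ContinuousOn Ph2 (Ioi 0)

/-- The quadratic form, without the contribution of `Φ''`; the letters are explained in the
paper. -/
noncomputable def Qp (K a b1 b v ω Y A m2 C2 N2 yh yb S6 S7 h E : ℝ) : ℝ :=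
  (1 + h * a) * ((1 + K) * A ^ 2 + K * (1 + K) * v ^ 2 * ω ^ 2)
    + h * b1 * ((1 + K) * C2 + K * (1 + K) * N2 * ω ^ 2)
    - 2 * E * Y * ((2 + K) * (a * v * A + b1 * m2) - K * (a * v ^ 2 + b1 * N2) * ω)
    - 2 * E * K * (A + v * ω) * (a * v * A + b1 * m2 - K * (a * v ^ 2 + b1 * N2) * ω)
    + 4 * E * (a * v ^ 2 + b1 * N2) * (Y ^ 2 + K * (A + v * ω) * Y)
    - E * (a * v ^ 2 + b1 * N2) * K * (1 + K) * (A + v * ω) * ω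
    + (yh + yb * ω) * ((1 + h * a) * (A + v * ω) - 2 * E * a * v * Y
        - 2 * E * (a * v * A + b1 * m2 - K * (a * v ^ 2 + b1 * N2) * ω)
        + 4 * E * (a * v ^ 2 + b1 * N2) * Y - E * (a * v ^ 2 + b1 * N2) * (1 + K) * ω)
    + b * (h * S6 - 2 * E * S7 * Y)

/-- ALI: the form in the letters of the paper (Abel summation). Here `z i` is one coordinate of
`∇ u_i / θ`, `ζ` of `∇ θ / θ`, and `z i - r i * ζ` of `∇ r_i`. -/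
def AliStatement : Prop :=
  ∀ (n : ℕ) (K s a b : ℝ) (κ r z : ℕ → ℝ) (ζ : ℝ), 1 ≤ n → 0 < K → 0 < s → κ 1 = 0 →
    ∀ (ρ' zh : ℕ → ℝ) (ω : ℝ), (∀ i, ρ' i = z i - r i * ζ) → ω = ζ / (1 + K) →
    (∀ k, zh k = qv n ρ' k + K * ω * qv n r k) →
    ∑ i ∈ Finset.range (n + 1), ρ' i * Gf n κ a b r ρ' i
      + ∑ i ∈ Finset.Ico 1 (n + 1), (K + κ i) * z i * (Gf n κ a b r ρ' i + ζ * Ff n κ a b r i)
    = Ph2 (r 0) * ρ' 0 ^ 2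
      + Qp K a (b * s) b (qv n r 1) ω (qv n ρ' 0) (zh 1)
          (∑ k ∈ Finset.Ico 2 (n + 1), al κ k / s * (qv n r k * zh k))
          (∑ k ∈ Finset.Ico 2 (n + 1), al κ k / s * zh k ^ 2)
          (∑ k ∈ Finset.Ico 2 (n + 1), al κ k / s * qv n r k ^ 2)
          (∑ k ∈ Finset.Ico 2 (n + 1), al κ k * zh k)
          (∑ k ∈ Finset.Ico 2 (n + 1), al κ k * qv n r k)
          (∑ k ∈ Finset.Ico 2 (n + 1), al κ k * ((κ k * qv n z k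
            + ∑ l ∈ Finset.Ico (k + 1) (n + 1), al κ l * qv n z l) * qv n z k))
          (∑ k ∈ Finset.Ico 2 (n + 1), al κ k * (qv n r k * (κ k * qv n z k
            + ∑ l ∈ Finset.Ico (k + 1) (n + 1), al κ l * qv n z l)))
          (hw (qv n r 0)) (Real.exp (4 - 4 * qv n r 0))

/-- ALB: the bounds for the letters. -/
def AlbStatement : Prop :=
  ∀ (n : ℕ) (s : ℝ) (κ r zh z : ℕ → ℝ) (ω : ℝ), 1 ≤ n → 0 < s → κ 1 = 0 →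
    (∀ k, 1 ≤ k → k < n → κ k ≤ κ (k + 1)) → (∀ k, 1 ≤ k → k ≤ n → κ k ≤ s) →
    (∀ i, i ≤ n → 0 ≤ r i) → (∀ k, qv n z k = zh k + qv n r k * ω) →
    ∃ v m2 C2 N2 yh yb S6 S7 : ℝ, v = qv n r 1 ∧
      m2 = (∑ k ∈ Finset.Ico 2 (n + 1), al κ k / s * (qv n r k * zh k)) ∧
      C2 = (∑ k ∈ Finset.Ico 2 (n + 1), al κ k / s * zh k ^ 2) ∧
      N2 = (∑ k ∈ Finset.Ico 2 (n + 1), al κ k / s * qv n r k ^ 2) ∧
      yh = (∑ k ∈ Finset.Ico 2 (n + 1), al κ k * zh k) ∧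
      yb = (∑ k ∈ Finset.Ico 2 (n + 1), al κ k * qv n r k) ∧
      S6 = (∑ k ∈ Finset.Ico 2 (n + 1), al κ k * ((κ k * qv n z k
            + ∑ l ∈ Finset.Ico (k + 1) (n + 1), al κ l * qv n z l) * qv n z k)) ∧
      S7 = (∑ k ∈ Finset.Ico 2 (n + 1), al κ k * (qv n r k * (κ k * qv n z k
            + ∑ l ∈ Finset.Ico (k + 1) (n + 1), al κ l * qv n z l))) ∧
      m2 ^ 2 ≤ v ^ 2 * C2 ∧ 0 ≤ C2 ∧ 0 ≤ N2 ∧ N2 ≤ v ^ 2 ∧ yh ^ 2 ≤ s ^ 2 * C2 ∧ 0 ≤ yb ∧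
      yb ≤ s * v ∧ 0 ≤ S6 ∧ S7 ^ 2 ≤ 8 * s ^ 4 * v ^ 2 * (C2 + v ^ 2 * ω ^ 2)

/-- ALP: the inequality for the letters. -/
def AlpStatement : Prop :=
  ∀ K v R ω Y A m2 C2 N2 yh yb S6 S7 : ℝ, 0 < K → 0 ≤ v → v ≤ R →
    m2 ^ 2 ≤ v ^ 2 * C2 → 0 ≤ C2 → 0 ≤ N2 → N2 ≤ v ^ 2 → yh ^ 2 ≤ wid K ^ 2 * C2 → 0 ≤ yb →
    yb ≤ wid K * v → 0 ≤ S6 → S7 ^ 2 ≤ 8 * wid K ^ 4 * v ^ 2 * (C2 + v ^ 2 * ω ^ 2) →
    1 / 2 * ((1 + K) * A ^ 2 + K * (1 + K) * v ^ 2 * ω ^ 2) ≤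
      Qp K (wa K) (wb K * wid K) (wb K) v ω Y A m2 C2 N2 yh yb S6 S7 (hw R)
        (Real.exp (4 - 4 * R))

/-- ALG: the pointwise inequality, in one coordinate. -/
def AlgWStatement : Prop :=
  ∀ (n : ℕ) (K : ℝ) (κ r z : ℕ → ℝ) (ζ : ℝ), Kap n K κ → (∀ i, i ≤ n → 0 < r i) →
    ∀ ρ' : ℕ → ℝ, (∀ i, ρ' i = z i - r i * ζ) →
    1 / 2 * (qv n ρ' 1 ^ 2 + K * (qv n ρ' 1 + qv n r 1 * ζ) ^ 2) ≤
      ∑ i ∈ Finset.range (n + 1), ρ' i * Gf n κ (wa K) (wb K) r ρ' i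
        + ∑ i ∈ Finset.Ico 1 (n + 1), (K + κ i) * z i *
          (Gf n κ (wa K) (wb K) r ρ' i + ζ * Ff n κ (wa K) (wb K) r i)

/-- ESG: the sign of the reaction term. -/
def EsgStatement : Prop :=
  ∀ (n : ℕ) (K : ℝ) (κ r : ℕ → ℝ), Kap n K κ → (∀ i, i ≤ n → 0 < r i) →
    0 ≤ (qv n r 0 - 1) * ∑ i ∈ Finset.range (n + 1), r i * Ff n κ (wa K) (wb K) r i ∧
    (r 0 ≤ 1 → 1 / 2 * ((qv n r 0 - 1) ^ 2 * (1 + qv n r 1 - r 0)) ≤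
      (qv n r 0 - 1) * ∑ i ∈ Finset.range (n + 1), r i * Ff n κ (wa K) (wb K) r i)

/-! ### Part B: the functional -/

/-- `∇ r_i`, `r_i = u_i / θ`. -/
noncomputable def rg {p : ℕ} (θ : ℝ) (θ' : Eu p) (f : ℕ → ℝ) (f' : ℕ → Eu p) (i : ℕ) : Eu p :=
  θ⁻¹ • (f' i - (f i / θ) • θ')

/-- `K = d_1 / d_0 - 1`. -/
noncomputable def Kr (ρ : ℕ → ℝ) : ℝ := ρ 1 / ρ 0 - 1

/-- `κ_i = (d_i - d_1) / d_0`. -/
noncomputable def kr (ρ : ℕ → ℝ) (i : ℕ) : ℝ := (ρ i - ρ 1) / ρ 0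

/-- The window condition. -/
structure Win (n : ℕ) (ρ : ℕ → ℝ) : Prop where
  ord : Ord n ρ
  nn : 0 ≤ Kr ρ
  win : ∀ i, 1 ≤ i → i ≤ n → kr ρ i ≤ wid (Kr ρ)

theorem Win.kap {n : ℕ} {ρ : ℕ → ℝ} (h : Win n ρ) : Kap n (Kr ρ) (kr ρ) where
  nn := h.nn
  pos := fun hn => by
    have h0 := h.ord.pos
    have h1 := h.ord.lt hn
    unfold Kr
    rw [sub_pos, lt_div_iff₀ h0]
    linarith
  one := by simp [kr]
  mono := fun k _ hk => by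
    have h0 := h.ord.pos
    have h1 := h.ord.mono k hk
    unfold kr
    gcongr
  le := h.win

/-- The functional, of a state `f`. -/
noncomputable def FuW {p : ℕ} (Ω : Set (Eu p)) (n : ℕ) (ρ : ℕ → ℝ) (θ : Eu p → ℝ)
    (f : ℕ → Eu p → ℝ) : ℝ :=
  ∫ x in Ω, θ x ^ 2 * Fh n (kr ρ) (wa (Kr ρ)) (wb (Kr ρ)) (fun i => f i x / θ x)

/-- The value of the functional at the steady state. -/
noncomputable def FuWE {p : ℕ} (Ω : Set (Eu p)) (θ : Eu p → ℝ) : ℝ :=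
  ∫ x in Ω, θ x ^ 2 * (3 / 2)

/-- The full quadratic form at a point. -/
noncomputable def QfW {p : ℕ} (n : ℕ) (ρ : ℕ → ℝ) (θ : ℝ) (θ' : Eu p) (f : ℕ → ℝ)
    (f' : ℕ → Eu p) : ℝ :=
  ∑ i ∈ Finset.range (n + 1), inner ℝ (rg θ θ' f f' i)
      (Gf n (kr ρ) (wa (Kr ρ)) (wb (Kr ρ)) (fun i => f i / θ) (rg θ θ' f f') i)
    + ∑ i ∈ Finset.Ico 1 (n + 1), (Kr ρ + kr ρ i) * inner ℝ (θ⁻¹ • f' i)
      (Gf n (kr ρ) (wa (Kr ρ)) (wb (Kr ρ)) (fun i => f i / θ) (rg θ θ' f f') i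
        + Ff n (kr ρ) (wa (Kr ρ)) (wb (Kr ρ)) (fun i => f i / θ) i • θ⁻¹ • θ')

/-- The reaction term at a point. -/
noncomputable def ReW (n : ℕ) (ρ : ℕ → ℝ) (θ : ℝ) (f : ℕ → ℝ) : ℝ :=
  (qv n (fun i => f i / θ) 0 - 1) * ∑ i ∈ Finset.range (n + 1),
    f i / θ * Ff n (kr ρ) (wa (Kr ρ)) (wb (Kr ρ)) (fun i => f i / θ) i

/-- The dissipation at `x`. -/
noncomputable def DxW {p : ℕ} (n : ℕ) (ρ : ℕ → ℝ) (θ : Eu p → ℝ) (θ' : Eu p → Eu p)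
    (f : ℕ → Eu p → ℝ) (f' : ℕ → Eu p → Eu p) (x : Eu p) : ℝ :=
  ρ 0 / 2 * (θ x ^ 2 * ‖qv n (rg (θ x) (θ' x) (fun i => f i x) (fun i => f' i x)) 1‖ ^ 2
      + Kr ρ * ‖qv n (fun i => f' i x) 1‖ ^ 2)
    + θ x ^ 3 * ReW n ρ (θ x) (fun i => f i x)

/-- DRT: time derivatives of the density. -/
def DrtStatement : Prop :=
  ∀ (n : ℕ) (κ : ℕ → ℝ) (a b : ℝ) (r : ℕ → ℝ → ℝ) (r' : ℕ → ℝ) (t : ℝ),
    (∀ i, i ≤ n → HasDerivAt (r i) (r' i) t) → 0 < r 0 t →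
    HasDerivAt (fun t => Fh n κ a b (fun i => r i t))
      (∑ i ∈ Finset.range (n + 1), Ff n κ a b (fun i => r i t) i * r' i) t

/-- DRG: gradients of the partial derivatives of the density. -/
def DrgStatement : Prop :=
  ∀ (p : ℕ) (Ω : Set (Eu p)) (q : Eu p → ℝ) (n : ℕ) (κ : ℕ → ℝ) (a b : ℝ) (r : ℕ → Eu p → ℝ)
    (r' : ℕ → Eu p → Eu p) (i : ℕ), Dom Ω q → i ≤ n → (∀ j, j ≤ n → C1 Ω (r j) (r' j)) →
    (∀ x ∈ closure Ω, 0 < r 0 x) →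
    C1 Ω (fun x => Ff n κ a b (fun j => r j x) i)
      (fun x => Gf n κ a b (fun j => r j x) (fun j => r' j x) i)

/-- DVW: time derivative of the functional. -/
def DvwStatement : Prop :=
  ∀ (p : ℕ) (Ω : Set (Eu p)) (q m : Eu p → ℝ) (θ : Eu p → ℝ) (θ' : Eu p → Eu p)
    (θ'' : Eu p → Eu p →L[ℝ] Eu p) (n : ℕ) (ρ : ℕ → ℝ) (u : ℕ → ℝ → Eu p → ℝ)
    (v : ℕ → ℝ → Eu p → Eu p) (w : ℕ → ℝ → Eu p → Eu p →L[ℝ] Eu p),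
    SolN Ω q m n ρ u v w → Win n ρ → Stdy Ω q m (ρ 0) θ θ' θ'' → ∀ t, 0 < t →
    HasDerivAt (fun t => FuW Ω n ρ θ (fun i => u i t))
      (∫ x in Ω, (-(ρ 0 * (θ x ^ 2 * QfW n ρ (θ x) (θ' x) (fun i => u i t x) (fun i => v i t x)))
        - θ x ^ 3 * ReW n ρ (θ x) (fun i => u i t x))) t

/-- DSW: the functional decreases. -/
def DswStatement : Prop :=
  ∀ (p : ℕ) (Ω : Set (Eu p)) (q m : Eu p → ℝ) (θ : Eu p → ℝ) (θ' : Eu p → Eu p)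
    (θ'' : Eu p → Eu p →L[ℝ] Eu p) (n : ℕ) (ρ : ℕ → ℝ) (u : ℕ → ℝ → Eu p → ℝ)
    (v : ℕ → ℝ → Eu p → Eu p) (w : ℕ → ℝ → Eu p → Eu p →L[ℝ] Eu p),
    SolN Ω q m n ρ u v w → Win n ρ → Stdy Ω q m (ρ 0) θ θ' θ'' → ∀ t, 0 < t →
    ∃ F' : ℝ, HasDerivAt (fun t => FuW Ω n ρ θ (fun i => u i t)) F' t ∧
      F' ≤ -∫ x in Ω, DxW n ρ θ θ' (fun i => u i t) (fun i => v i t) x

/-- LOW: the functional is at least its value at the steady state. -/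
def LowWStatement : Prop :=
  ∀ (p : ℕ) (Ω : Set (Eu p)) (q m : Eu p → ℝ) (θ : Eu p → ℝ) (θ' : Eu p → Eu p)
    (θ'' : Eu p → Eu p →L[ℝ] Eu p) (n : ℕ) (ρ : ℕ → ℝ) (f : ℕ → Eu p → ℝ), Dom Ω q →
    Win n ρ → Stdy Ω q m (ρ 0) θ θ' θ'' →
    (∀ i, i ≤ n → ContinuousOn (f i) (closure Ω) ∧ ∀ x ∈ closure Ω, 0 < f i x) →
    FuWE Ω θ ≤ FuW Ω n ρ θ f

/-- UPP: upper bound of the functional near the steady state. -/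
def UppWStatement : Prop :=
  ∀ (p : ℕ) (Ω : Set (Eu p)) (q m : Eu p → ℝ) (θ : Eu p → ℝ) (θ' : Eu p → Eu p)
    (θ'' : Eu p → Eu p →L[ℝ] Eu p) (n : ℕ) (ρ : ℕ → ℝ) (η : ℝ), Dom Ω q →
    Win n ρ → Stdy Ω q m (ρ 0) θ θ' θ'' → 0 < η →
    ∃ δ : ℝ, 0 < δ ∧ ∀ f : ℕ → Eu p → ℝ,
      (∀ i, i ≤ n → ContinuousOn (f i) (closure Ω) ∧ ∀ x ∈ closure Ω, 0 < f i x) →
      (∀ x ∈ closure Ω, |f 0 x - θ x| < δ ∧ ∀ i, 1 ≤ i → i ≤ n → f i x < δ) →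
      FuW Ω n ρ θ f < FuWE Ω θ + η

/-- LOB: if the functional is close to its minimum and `f 0` is not much larger than `θ`, then
the state is close to the steady state. -/
def LobWStatement : Prop :=
  ∀ (p : ℕ) (Ω : Set (Eu p)) (q m : Eu p → ℝ) (θ : Eu p → ℝ) (θ' : Eu p → Eu p)
    (θ'' : Eu p → Eu p →L[ℝ] Eu p) (n : ℕ) (ρ : ℕ → ℝ) (M K ε : ℝ), Dom Ω q →
    Win n ρ → Stdy Ω q m (ρ 0) θ θ' θ'' → 0 < ε →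
    ∃ η : ℝ, 0 < η ∧ ∀ f : ℕ → Eu p → ℝ,
      (∀ i, i ≤ n → ContinuousOn (f i) (closure Ω) ∧ LipOn Ω K (f i) ∧
        ∀ x ∈ closure Ω, 0 < f i x ∧ f i x ≤ M) →
      (∀ x ∈ closure Ω, f 0 x ≤ (1 + η) * θ x) →
      FuW Ω n ρ θ f < FuWE Ω θ + η →
      ∀ x ∈ closure Ω, |f 0 x - θ x| < ε ∧ ∀ i, 1 ≤ i → i ≤ n → f i x < ε

/-- CLO: if the dissipation is small and `f 0` is not much larger than `θ`, then the state is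
close to the steady state. -/
def CloWStatement : Prop :=
  ∀ (p : ℕ) (Ω : Set (Eu p)) (q m : Eu p → ℝ) (θ : Eu p → ℝ) (θ' : Eu p → Eu p)
    (θ'' : Eu p → Eu p →L[ℝ] Eu p) (n : ℕ) (ρ : ℕ → ℝ) (M K ε : ℝ), Dom Ω q →
    ContinuousOn m (closure Ω) → (∃ x ∈ closure Ω, ∃ y ∈ closure Ω, m x ≠ m y) →
    Win n ρ → Stdy Ω q m (ρ 0) θ θ' θ'' → 0 < ε →
    ∃ δ : ℝ, 0 < δ ∧ ∀ (f : ℕ → Eu p → ℝ) (f' : ℕ → Eu p → Eu p),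
      (∀ i, i ≤ n → C1 Ω (f i) (f' i) ∧ LipOn Ω K (f i) ∧
        ∀ x ∈ closure Ω, 0 < f i x ∧ f i x ≤ M) →
      (∀ x ∈ closure Ω, f 0 x ≤ (1 + δ) * θ x) →
      ∫ x in Ω, DxW n ρ θ θ' f f' x < δ →
      ∀ x ∈ closure Ω, |f 0 x - θ x| < ε ∧ ∀ i, 1 ≤ i → i ≤ n → f i x < ε

/-- TOP: the upper bound for the slowest species. -/
def TopStatement : Prop :=
  ∀ (p : ℕ) (Ω : Set (Eu p)) (q m : Eu p → ℝ) (θ : Eu p → ℝ) (θ' : Eu p → Eu p)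
    (θ'' : Eu p → Eu p →L[ℝ] Eu p) (N : ℕ) (d : Fin N → ℝ) (i₀ : Fin N), Dom Ω q →
    ContinuousOn m (closure Ω) → (∀ i, 0 < d i) → Stdy Ω q m (d i₀) θ θ' θ'' →
    ∃ c : ℝ, 0 < c ∧ ∀ (u : Fin N → ℝ → Eu p → ℝ) (v : Fin N → ℝ → Eu p → Eu p)
      (w : Fin N → ℝ → Eu p → Eu p →L[ℝ] Eu p) (σ : ℝ), Sol Ω q m d u v w → 0 ≤ σ →
      (∀ x ∈ closure Ω, u i₀ 0 x ≤ (1 + σ) * θ x) →
      ∀ t, 0 ≤ t → ∀ x ∈ closure Ω, u i₀ t x ≤ (1 + σ * Real.exp (-(c * t))) * θ x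

/-! ### Part C: the system -/

/-- CRI: the criterion. -/
def CriWStatement : Prop :=
  ∀ (p : ℕ) (Ω : Set (Eu p)) (q m : Eu p → ℝ) (θ : Eu p → ℝ) (θ' : Eu p → Eu p)
    (θ'' : Eu p → Eu p →L[ℝ] Eu p) (N : ℕ) (d : Fin N → ℝ) (i₀ : Fin N) (D W : ℝ), Dom Ω q →
    ContinuousOn m (closure Ω) → (∃ x ∈ closure Ω, ∃ y ∈ closure Ω, m x ≠ m y) → 0 < d i₀ →
    d i₀ < D → (∀ j, j ≠ i₀ → D ≤ d j ∧ d j ≤ D + W) →
    1000000 * W ^ 2 ≤ d i₀ * min (d i₀) (D - d i₀) → Stdy Ω q m (d i₀) θ θ' θ'' →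
    GasN Ω q m d i₀ θ

end Pool.Agent.Lib.MP_4fbe7c_an.WN
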