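import Pool.Agent.Lib.MP_4fbe7c_an.ND.Main
import Pool.Agent.Lib.MP_4fbe7c_an.WN.H67.Phi
import Pool.Agent.Lib.MP_4fbe7c_an.WN.H53.Ali
import Pool.Agent.Lib.MP_4fbe7c_an.WN.H36.Alb
import Pool.Agent.Lib.MP_4fbe7c_an.WN.H54.Alp
import Pool.Agent.Lib.MP_4fbe7c_an.WN.H20.Alg
import Pool.Agent.Lib.MP_4fbe7c_an.WN.H74.Esg
import Pool.Agent.Lib.MP_4fbe7c_an.WN.H70.DRT
import Pool.Agent.Lib.MP_4fbe7c_an.WN.H06.Drg
import Pool.Agent.Lib.MP_4fbe7c_an.WN.H03.Dvw
import Pool.Agent.Lib.MP_4fbe7c_an.WN.H69.Dsw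
import Pool.Agent.Lib.MP_4fbe7c_an.WN.H18.Low
import Pool.Agent.Lib.MP_4fbe7c_an.WN.H40.Upp
import Pool.Agent.Lib.MP_4fbe7c_an.WN.H31.Lob
import Pool.Agent.Lib.MP_4fbe7c_an.WN.H61.Clo
import Pool.Agent.Lib.MP_4fbe7c_an.WN.H59.Top
import Pool.Agent.Lib.MP_4fbe7c_an.WN.H54.Cri

/-!
Project WN (MP_4fbe7c_an), module FIN (helper54): the main statements, proved.
-/

set_option autoImplicit false

namespace Pool.Agent.Lib.MP_4fbe7c_an.WN.Main

open Pool.Agent.Lib.MP_4fbe7c_an.WN Pool.Agent.Lib.MP_4fbe7c_an.ND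

theorem phi_st : PhiStatement := H67.phi_st
theorem alg_st : AlgWStatement := H20.alg_st phi_st H53.ali_st H36.alb_st H54.alp_st
theorem esg_st : EsgStatement := H74.esg_st
theorem drt_st : DrtStatement := H70.drt_st phi_st
theorem drg_st : DrgStatement := H06.drg_st phi_st
theorem dvw_st : DvwStatement := H03.dvw_st phi_st drt_st drg_st ND.Main.dif_st ND.Main.ibp_st
theorem dsw_st : DswStatement := H69.dsw_st dvw_st alg_st
theorem low_st : LowWStatement := H18.low_st phi_st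
theorem upp_st : UppWStatement := H40.upp_st phi_st
theorem lob_st : LobWStatement := H31.lob_st phi_st ND.Main.sup_st ND.Main.thl_st
theorem clo_st : CloWStatement :=
  H61.clo_st phi_st esg_st ND.Main.sup_st ND.Main.osc_st ND.Main.thl_st
theorem top_st : TopStatement := H59.top_st ND.Main.cmp_st ND.Main.pre_st

theorem cri_st : CriWStatement :=
  H54.cri_st esg_st FC.gtm_st dsw_st low_st upp_st lob_st clo_st top_st ND.Main.pre_st
    ND.Main.bnd_st ND.Main.sho_st ND.Main.mrg_st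

end Pool.Agent.Lib.MP_4fbe7c_an.WN.Main
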